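import Pool.Agent.Q35.LO.Stm

/-! # Project LO: summation over the scales -/

set_option autoImplicit false

namespace Pool.Agent.Q31.LO

open Finset Function

section

variable {ι : Type} [Fintype ι] [DecidableEq ι]

/-- the exponents outside `j` -/
def gg (B0 : ℕ) (j : ι) {K : ℕ} (f : {l : ι // l ≠ j} → Fin K) (l : ι) : ℕ :=
  if h : l = j then 0 else B0 + (f ⟨l, h⟩ : ℕ)

/-- the weighted sum of the exponents outside `j` -/
def QQ (r : ι → ℕ) (B0 : ℕ) (j : ι) {K : ℕ} (f : {l : ι // l ≠ j} → Fin K) : ℕ :=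
  ∑ l ∈ univ.erase j, r l * gg B0 j f l

/-- the exponents -/
def ee (r : ι → ℕ) (B0 R : ℕ) (j : ι) {K : ℕ} (f : {l : ι // l ≠ j} → Fin K) : ι → ℕ :=
  update (gg B0 j f) j ((R - QQ r B0 j f) / r j)

omit [Fintype ι] in
lemma gg_le (B0 : ℕ) (j : ι) {K : ℕ} (f : {l : ι // l ≠ j} → Fin K) (l : ι) :
    gg B0 j f l ≤ B0 + K := by
  unfold gg
  split_ifs with h
  · omega
  · have := (f ⟨l, h⟩).isLt
    omega

lemma QQ_le (r : ι → ℕ) (B0 : ℕ) (j : ι) {K : ℕ} (f : {l : ι // l ≠ j} → Fin K) :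
    QQ r B0 j f ≤ (∑ l ∈ univ.erase j, r l) * (B0 + K) := by
  unfold QQ
  rw [sum_mul]
  exact sum_le_sum fun l _ => Nat.mul_le_mul_left _ (gg_le B0 j f l)

lemma sum_gg_le (r : ι → ℕ) (hr : ∀ l, 1 ≤ r l) (B0 : ℕ) (j : ι) {K : ℕ}
    (f : {l : ι // l ≠ j} → Fin K) :
    ∑ l ∈ univ.erase j, gg B0 j f l ≤ (∑ l ∈ univ.erase j, r l) * (B0 + K) := by
  refine le_trans (sum_le_sum fun l _ => ?_) (QQ_le r B0 j f)
  exact Nat.le_mul_of_pos_left _ (hr l)

lemma ee_ne (r : ι → ℕ) (B0 R : ℕ) (j : ι) {K : ℕ} (f : {l : ι // l ≠ j} → Fin K) (l : ι)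
    (h : l ≠ j) : ee r B0 R j f l = B0 + (f ⟨l, h⟩ : ℕ) := by
  unfold ee gg
  rw [update_of_ne h, dif_neg h]

lemma ee_self (r : ι → ℕ) (B0 R : ℕ) (j : ι) {K : ℕ} (f : {l : ι // l ≠ j} → Fin K) :
    ee r B0 R j f j = (R - QQ r B0 j f) / r j := by
  unfold ee
  rw [update_self]

lemma sum_ee (r : ι → ℕ) (B0 R : ℕ) (j : ι) {K : ℕ} (f : {l : ι // l ≠ j} → Fin K) :
    ∑ l, r l * ee r B0 R j f l = QQ r B0 j f + r j * ((R - QQ r B0 j f) / r j) := by
  rw [← sum_erase_add univ _ (mem_univ j), ee_self]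
  congr 1
  unfold QQ
  refine sum_congr rfl fun l hl => ?_
  unfold ee
  rw [update_of_ne (ne_of_mem_erase hl)]

end

lemma core {ι : Type} [Fintype ι] [DecidableEq ι] {X : Type} {H : ι → X → ℝ} {P : X → Prop}
    {r : ι → ℕ} {d : ℕ} {j : ι} {η c0 C : ℝ} {A B0 : ℕ} (hr : ∀ l, 1 ≤ r l) (hd : 1 ≤ d)
    (_hη : 0 < η) (hc0 : 0 < c0) (hH : ∀ l x, 1 ≤ H l x)
    (hfin : ∀ B : ℝ, {x | P x ∧ ∏ l, H l x ^ r l ≤ B}.Finite)
    (hS : ∀ b : ι → ℕ, (∀ l, B0 ≤ b l) → (∀ l, 1 ≤ b l) →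
      C * (∏ l ∈ univ.erase j, (b l : ℝ)) ^ A ≤ b j →
      ∃ S : Finset X, (∀ x ∈ S, P x ∧ ∀ l, (η * b l) ^ d ≤ H l x ∧ H l x ≤ (b l : ℝ) ^ d) ∧
        c0 * ∏ l, (b l : ℝ) ^ (d * r l) ≤ (S.card : ℝ))
    (q : ℕ) (hq : 2 ≤ q) (hqη : 1 < q * η) (c : ℕ) (hc : C ≤ (q : ℝ) ^ c) (R K : ℕ)
    (hRK : r j * (B0 + c + A * ((∑ l ∈ univ.erase j, r l) * (B0 + K))) +
      (∑ l ∈ univ.erase j, r l) * (B0 + K) ≤ R) :
    c0 * (K : ℝ) ^ (Fintype.card ι - 1) * (q : ℝ) ^ (d * (R - r j)) ≤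
      (({x | P x ∧ ∏ l, H l x ^ r l ≤ (q : ℝ) ^ (d * R)}.ncard : ℕ) : ℝ) := by
  classical
  have hq1 : (1 : ℝ) ≤ q := by exact_mod_cast le_trans (by norm_num) hq
  have hq0 : (0 : ℝ) < q := lt_of_lt_of_le one_pos hq1
  have hqn : 0 < q := by omega
  -- the exponents satisfy the conditions
  have hQR : ∀ f : {l : ι // l ≠ j} → Fin K, QQ r B0 j f ≤ R := fun f =>
    le_trans (QQ_le r B0 j f) (le_trans (Nat.le_add_left _ _) hRK)
  have hej : ∀ f : {l : ι // l ≠ j} → Fin K,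
      B0 + c + A * ((∑ l ∈ univ.erase j, r l) * (B0 + K)) ≤ ee r B0 R j f j := by
    intro f
    rw [ee_self, Nat.le_div_iff_mul_le (hr j)]
    have h1 := QQ_le r B0 j f
    have h2 : (B0 + c + A * ((∑ l ∈ univ.erase j, r l) * (B0 + K))) * r j =
      r j * (B0 + c + A * ((∑ l ∈ univ.erase j, r l) * (B0 + K))) := mul_comm _ _
    omega
  have hB0 : ∀ (f : {l : ι // l ≠ j} → Fin K) (l : ι), B0 ≤ ee r B0 R j f l := by
    intro f l
    by_cases h : l = j
    · subst h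
      exact le_trans (by omega) (hej f)
    · rw [ee_ne r B0 R j f l h]
      omega
  have hex : ∀ f : {l : ι // l ≠ j} → Fin K, ∃ S : Finset X,
      (∀ x ∈ S, P x ∧ ∀ l, (η * ((q ^ ee r B0 R j f l : ℕ) : ℝ)) ^ d ≤ H l x ∧
        H l x ≤ (((q ^ ee r B0 R j f l : ℕ) : ℝ)) ^ d) ∧
        c0 * ∏ l, ((q ^ ee r B0 R j f l : ℕ) : ℝ) ^ (d * r l) ≤ (S.card : ℝ) := by
    intro f
    refine hS (fun l => q ^ ee r B0 R j f l) ?_ ?_ ?_
    · intro l
      exact le_trans (hB0 f l) (Nat.lt_pow_self (by omega)).le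
    · intro l
      exact Nat.one_le_pow _ _ hqn
    · have h1 : ∏ l ∈ univ.erase j, ((q ^ ee r B0 R j f l : ℕ) : ℝ) =
          (q : ℝ) ^ (∑ l ∈ univ.erase j, gg B0 j f l) := by
        rw [← prod_pow_eq_pow_sum]
        refine prod_congr rfl fun l hl => ?_
        unfold ee
        rw [update_of_ne (ne_of_mem_erase hl)]
        push_cast
        rfl
      rw [h1, ← pow_mul]
      calc C * (q : ℝ) ^ ((∑ l ∈ univ.erase j, gg B0 j f l) * A)
          ≤ (q : ℝ) ^ c * (q : ℝ) ^ ((∑ l ∈ univ.erase j, gg B0 j f l) * A) :=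
            mul_le_mul_of_nonneg_right hc (by positivity)
        _ = (q : ℝ) ^ (c + (∑ l ∈ univ.erase j, gg B0 j f l) * A) := by rw [pow_add]
        _ ≤ (q : ℝ) ^ ee r B0 R j f j := by
            refine pow_le_pow_right₀ hq1 (le_trans ?_ (hej f))
            have h2 := Nat.mul_le_mul_right A (sum_gg_le r hr B0 j f)
            have h3 : (∑ l ∈ univ.erase j, r l) * (B0 + K) * A =
              A * ((∑ l ∈ univ.erase j, r l) * (B0 + K)) := mul_comm _ _
            omega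
        _ = ((q ^ ee r B0 R j f j : ℕ) : ℝ) := by push_cast; rfl
  choose S hS1 hS2 using hex
  -- the products
  have hprod : ∀ f : {l : ι // l ≠ j} → Fin K,
      ∏ l, ((q ^ ee r B0 R j f l : ℕ) : ℝ) ^ (d * r l) =
        (q : ℝ) ^ (d * ∑ l, r l * ee r B0 R j f l) := by
    intro f
    rw [mul_sum, ← prod_pow_eq_pow_sum]
    refine prod_congr rfl fun l _ => ?_
    push_cast
    rw [← pow_mul]
    congr 1
    ring
  have hup : ∀ f : {l : ι // l ≠ j} → Fin K, ∑ l, r l * ee r B0 R j f l ≤ R := by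
    intro f
    rw [sum_ee]
    have h1 := Nat.mul_div_le (R - QQ r B0 j f) (r j)
    have h2 := hQR f
    omega
  have hlo : ∀ f : {l : ι // l ≠ j} → Fin K, R - r j ≤ ∑ l, r l * ee r B0 R j f l := by
    intro f
    rw [sum_ee]
    have h1 := Nat.lt_mul_div_succ (R - QQ r B0 j f) (hr j)
    have h2 := hQR f
    have h3 : r j * ((R - QQ r B0 j f) / r j + 1) =
      r j * ((R - QQ r B0 j f) / r j) + r j := by ring
    omega
  -- disjointness
  have hdis : (↑(univ : Finset ({l : ι // l ≠ j} → Fin K)) :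
      Set ({l : ι // l ≠ j} → Fin K)).PairwiseDisjoint S := by
    intro f _ f' _ hff
    have key : ∀ (f f' : {l : ι // l ≠ j} → Fin K) (l : {l : ι // l ≠ j}),
        f l < f' l → ∀ x, x ∈ S f → x ∈ S f' → False := by
      intro f f' l hl x hx hx'
      have h1 := ((hS1 f x hx).2 l.1).2
      have h2 := ((hS1 f' x hx').2 l.1).1
      rw [ee_ne r B0 R j f l.1 l.2] at h1
      rw [ee_ne r B0 R j f' l.1 l.2] at h2
      have h3 : (η * ((q ^ (B0 + (f' l : ℕ)) : ℕ) : ℝ)) ^ d ≤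
        (((q ^ (B0 + (f l : ℕ)) : ℕ) : ℝ)) ^ d := le_trans h2 h1
      have h4 : ((q ^ (B0 + (f l : ℕ)) : ℕ) : ℝ) < η * ((q ^ (B0 + (f' l : ℕ)) : ℕ) : ℝ) := by
        have h5 : B0 + (f' l : ℕ) = (B0 + (f' l : ℕ) - 1) + 1 := by
          have : (f l : ℕ) < f' l := hl
          omega
        have h6 : B0 + (f l : ℕ) ≤ B0 + (f' l : ℕ) - 1 := by
          have : (f l : ℕ) < f' l := hl
          omega
        rw [h5]
        push_cast
        calc (q : ℝ) ^ (B0 + (f l : ℕ)) ≤ (q : ℝ) ^ (B0 + (f' l : ℕ) - 1) :=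
              pow_le_pow_right₀ hq1 h6
          _ < (q : ℝ) ^ (B0 + (f' l : ℕ) - 1) * (q * η) :=
              lt_mul_of_one_lt_right (by positivity) hqη
          _ = η * (q : ℝ) ^ (B0 + (f' l : ℕ) - 1 + 1) := by rw [pow_succ]; ring
      have h7 := pow_lt_pow_left₀ h4 (by positivity) (by omega : d ≠ 0)
      exact absurd h3 (not_le.2 h7)
    rw [Function.onFun, Finset.disjoint_left]
    intro x hx hx'
    obtain ⟨l, hl⟩ := Function.ne_iff.1 hff
    rcases lt_or_gt_of_ne hl with h | h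
    · exact key f f' l h x hx hx'
    · exact key f' f l h x hx' hx
  have hsub : ((univ.biUnion S : Finset X) : Set X) ⊆
      {x | P x ∧ ∏ l, H l x ^ r l ≤ (q : ℝ) ^ (d * R)} := by
    intro x hx
    rw [Finset.mem_coe, mem_biUnion] at hx
    obtain ⟨f, -, hf⟩ := hx
    refine ⟨(hS1 f x hf).1, ?_⟩
    calc ∏ l, H l x ^ r l ≤ ∏ l, ((q ^ ee r B0 R j f l : ℕ) : ℝ) ^ (d * r l) := by
          refine prod_le_prod (fun l _ => pow_nonneg (le_trans zero_le_one (hH l x)) _)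
            fun l _ => ?_
          rw [pow_mul]
          exact pow_le_pow_left₀ (le_trans zero_le_one (hH l x)) ((hS1 f x hf).2 l).2 _
      _ = (q : ℝ) ^ (d * ∑ l, r l * ee r B0 R j f l) := hprod f
      _ ≤ (q : ℝ) ^ (d * R) := pow_le_pow_right₀ hq1 (Nat.mul_le_mul_left _ (hup f))
  have hcard : ((univ.biUnion S).card : ℝ) ≤
      (({x | P x ∧ ∏ l, H l x ^ r l ≤ (q : ℝ) ^ (d * R)}.ncard : ℕ) : ℝ) := by
    rw [← Set.ncard_coe_finset]
    exact_mod_cast Set.ncard_le_ncard hsub (hfin _)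
  refine le_trans ?_ hcard
  rw [card_biUnion (fun f hf f' hf' h => hdis hf hf' h)]
  push_cast
  have hle : ∀ f : {l : ι // l ≠ j} → Fin K,
      c0 * (q : ℝ) ^ (d * (R - r j)) ≤ ((S f).card : ℝ) := by
    intro f
    refine le_trans ?_ (hS2 f)
    rw [hprod f]
    exact mul_le_mul_of_nonneg_left
      (pow_le_pow_right₀ hq1 (Nat.mul_le_mul_left _ (hlo f))) hc0.le
  calc c0 * (K : ℝ) ^ (Fintype.card ι - 1) * (q : ℝ) ^ (d * (R - r j))
      = ∑ _f : {l : ι // l ≠ j} → Fin K, c0 * (q : ℝ) ^ (d * (R - r j)) := by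
        rw [sum_const, card_univ, Fintype.card_fun, Fintype.card_fin, nsmul_eq_mul]
        have : Fintype.card {l : ι // l ≠ j} = Fintype.card ι - 1 := by
          rw [Fintype.card_subtype_compl, Fintype.card_subtype_eq]
        rw [this]
        push_cast
        ring
    _ ≤ ∑ f, ((S f).card : ℝ) := sum_le_sum fun f _ => hle f

/-- Job LO-SUM. -/
theorem sum : Pool.Agent.Q35.LO.S_SUM := by
  intro ι _ _ X H P r d j η c0 C A B0 hι hr hd hη hc0 hH hfin hS
  obtain ⟨q0, hq0⟩ := exists_nat_gt (1 / η)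
  set q : ℕ := max q0 2 with hqdef
  have hq : 2 ≤ q := le_max_right _ _
  have hq1 : (1 : ℝ) < q := by exact_mod_cast (by omega : 1 < q)
  have hqη : 1 < (q : ℝ) * η := by
    have h1 : 1 / η < q := lt_of_lt_of_le hq0 (by exact_mod_cast le_max_left _ _)
    rwa [div_lt_iff₀ hη] at h1
  obtain ⟨c, hc⟩ := pow_unbounded_of_one_lt C hq1
  set M : ℕ := ∑ l ∈ univ.erase j, r l with hM
  set D : ℕ := 2 * (r j * (A * M) + M) + 1 with hD
  set E : ℕ := r j * (B0 + c + A * (M * B0)) + M * B0 with hE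
  have hlq : 0 < Real.log q := Real.log_pos hq1
  have hdR : (0 : ℝ) < d := by exact_mod_cast hd
  have hDR : (0 : ℝ) < D := by rw [hD]; positivity
  set s : ℕ := Fintype.card ι - 1 with hs
  refine ⟨c0 * (1 / (4 * D * (d * Real.log q))) ^ s * (1 / (q : ℝ) ^ (d * (r j + 1))),
    (q : ℝ) ^ (d * (2 * E + 4 * D + 2)), by positivity, ?_⟩
  intro B hB
  have hBpos : 0 < B := lt_of_lt_of_le (by positivity) hB
  set R : ℕ := ⌊Real.log B / (d * Real.log q)⌋₊ with hR
  have hdl : 0 < d * Real.log q := by positivity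
  have hlogB : ((d * (2 * E + 4 * D + 2) : ℕ) : ℝ) * Real.log q ≤ Real.log B := by
    rw [← Real.log_pow]
    exact Real.log_le_log (by positivity) hB
  have hx : ((2 * E + 4 * D + 2 : ℕ) : ℝ) ≤ Real.log B / (d * Real.log q) := by
    rw [le_div_iff₀ hdl]
    refine le_trans (le_of_eq ?_) hlogB
    push_cast
    ring
  have hRlow : 2 * E + 4 * D + 2 ≤ R := Nat.le_floor hx
  have hRle : (R : ℝ) ≤ Real.log B / (d * Real.log q) :=
    Nat.floor_le (le_trans (by positivity) hx)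
  have hRlt : Real.log B / (d * Real.log q) < R + 1 := Nat.lt_floor_add_one _
  have hqR : (q : ℝ) ^ (d * R) ≤ B := by
    rw [← Real.log_le_log_iff (by positivity) hBpos, Real.log_pow]
    rw [le_div_iff₀ hdl] at hRle
    refine le_trans (le_of_eq ?_) hRle
    push_cast
    ring
  have hqR' : B ≤ (q : ℝ) ^ (d * (R + 1)) := by
    rw [← Real.log_le_log_iff hBpos (by positivity), Real.log_pow]
    rw [div_lt_iff₀ hdl] at hRlt
    refine le_trans hRlt.le (le_of_eq ?_)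
    push_cast
    ring
  set K : ℕ := R / D with hK
  have hDK : D * K ≤ R := Nat.mul_div_le R D
  have hRK : r j * (B0 + c + A * (M * (B0 + K))) + M * (B0 + K) ≤ R := by
    have h1 : r j * (B0 + c + A * (M * (B0 + K))) + M * (B0 + K) =
        E + (r j * (A * M) + M) * K := by
      rw [hE]; ring
    rw [h1]
    have h2 : D * K = 2 * ((r j * (A * M) + M) * K) + K := by rw [hD]; ring
    generalize (r j * (A * M) + M) * K = Z at h2 ⊢
    have h3 : 2 * E ≤ R := le_trans (by rw [add_assoc]; exact Nat.le_add_right _ _) hRlow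
    have h4 : 2 * Z + K ≤ R := by rw [← h2]; exact hDK
    clear_value E K R
    clear h1 h2
    omega
  have hmain := core hr hd hη hc0 hH hfin hS q hq hqη c hc.le R K hRK
  have hKR : (R : ℝ) / (2 * D) ≤ K := by
    have h1 : R < D * (K + 1) := by
      rw [hK]
      exact Nat.lt_mul_div_succ R (by omega)
    have h2 : (R : ℝ) < D * (K + 1) := by exact_mod_cast h1
    have h3 : (4 * D : ℝ) ≤ R := by
      have : 4 * D ≤ R := by omega
      exact_mod_cast this
    rw [div_le_iff₀ (by positivity)]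
    nlinarith
  have hRB : Real.log B / (2 * (d * Real.log q)) ≤ R := by
    have h1 : (1 : ℝ) ≤ R := by
      have : 1 ≤ R := by omega
      exact_mod_cast this
    have h2 : Real.log B / (2 * (d * Real.log q)) = Real.log B / (d * Real.log q) / 2 := by
      field_simp
    rw [h2]
    linarith
  have hlogpos : 0 ≤ Real.log B := le_trans (by positivity) hlogB
  have hK2 : Real.log B * (1 / (4 * D * (d * Real.log q))) ≤ K := by
    refine le_trans ?_ hKR
    rw [le_div_iff₀ (by positivity)]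
    refine le_trans (le_of_eq ?_) hRB
    field_simp
    ring
  calc c0 * (1 / (4 * D * (d * Real.log q))) ^ s * (1 / (q : ℝ) ^ (d * (r j + 1))) * B *
        Real.log B ^ s
      = c0 * (Real.log B * (1 / (4 * D * (d * Real.log q)))) ^ s *
          (B / (q : ℝ) ^ (d * (r j + 1))) := by
        rw [mul_pow]; ring
    _ ≤ c0 * (K : ℝ) ^ s * (q : ℝ) ^ (d * (R - r j)) := by
        refine mul_le_mul ?_ ?_ (by positivity) (by positivity)
        · exact mul_le_mul_of_nonneg_left (pow_le_pow_left₀ (by positivity) hK2 _) hc0.le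
        · rw [div_le_iff₀ (by positivity), ← pow_add]
          refine le_trans hqR' (pow_le_pow_right₀ hq1.le ?_)
          rw [← mul_add]
          exact Nat.mul_le_mul_left _ (by omega)
    _ ≤ (({x | P x ∧ ∏ l, H l x ^ r l ≤ (q : ℝ) ^ (d * R)}.ncard : ℕ) : ℝ) := hmain
    _ ≤ (({x | P x ∧ ∏ l, H l x ^ r l ≤ B}.ncard : ℕ) : ℝ) := by
        have hss : {x | P x ∧ ∏ l, H l x ^ r l ≤ (q : ℝ) ^ (d * R)} ⊆
            {x | P x ∧ ∏ l, H l x ^ r l ≤ B} := fun x hx => ⟨hx.1, hx.2.trans hqR⟩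
        exact_mod_cast Set.ncard_le_ncard hss (hfin B)

end Pool.Agent.Q31.LO
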